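import Pool.Agent.Helper42.PQ.Spec3

/-!
Part F3 of swarm PQ: a finite check.
-/

set_option autoImplicit false

namespace Pool.Agent.Helper71.PQF3

open Finset

/-- all triples -/
def chk6 (d x0 x1 x2 x3 x4 x5 : ℕ) : Bool :=
  Nat.beq (x0 + x1 + x2) d || Nat.beq (x0 + x1 + x3) d || Nat.beq (x0 + x1 + x4) d ||
  Nat.beq (x0 + x1 + x5) d || Nat.beq (x0 + x2 + x3) d || Nat.beq (x0 + x2 + x4) d ||
  Nat.beq (x0 + x2 + x5) d || Nat.beq (x0 + x3 + x4) d || Nat.beq (x0 + x3 + x5) d ||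
  Nat.beq (x0 + x4 + x5) d || Nat.beq (x1 + x2 + x3) d || Nat.beq (x1 + x2 + x4) d ||
  Nat.beq (x1 + x2 + x5) d || Nat.beq (x1 + x3 + x4) d || Nat.beq (x1 + x3 + x5) d ||
  Nat.beq (x1 + x4 + x5) d || Nat.beq (x2 + x3 + x4) d || Nat.beq (x2 + x3 + x5) d ||
  Nat.beq (x2 + x4 + x5) d || Nat.beq (x3 + x4 + x5) d

theorem chk6_spec (d x0 x1 x2 x3 x4 x5 : ℕ) (h : chk6 d x0 x1 x2 x3 x4 x5 = true) :
    ∃ i j k : Fin 6, i < j ∧ j < k ∧
      ![x0, x1, x2, x3, x4, x5] i + ![x0, x1, x2, x3, x4, x5] j + ![x0, x1, x2, x3, x4, x5] k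
        = d := by
  unfold chk6 at h
  simp only [Bool.or_eq_true, Nat.beq_eq] at h
  rcases h with ((((((((((((((((((h | h) | h) | h) | h) | h) | h) | h) | h) | h) | h) | h) | h) |
    h) | h) | h) | h) | h) | h) | h
  · exact ⟨0, 1, 2, by decide, by decide, h⟩
  · exact ⟨0, 1, 3, by decide, by decide, h⟩
  · exact ⟨0, 1, 4, by decide, by decide, h⟩
  · exact ⟨0, 1, 5, by decide, by decide, h⟩
  · exact ⟨0, 2, 3, by decide, by decide, h⟩
  · exact ⟨0, 2, 4, by decide, by decide, h⟩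
  · exact ⟨0, 2, 5, by decide, by decide, h⟩
  · exact ⟨0, 3, 4, by decide, by decide, h⟩
  · exact ⟨0, 3, 5, by decide, by decide, h⟩
  · exact ⟨0, 4, 5, by decide, by decide, h⟩
  · exact ⟨1, 2, 3, by decide, by decide, h⟩
  · exact ⟨1, 2, 4, by decide, by decide, h⟩
  · exact ⟨1, 2, 5, by decide, by decide, h⟩
  · exact ⟨1, 3, 4, by decide, by decide, h⟩
  · exact ⟨1, 3, 5, by decide, by decide, h⟩
  · exact ⟨1, 4, 5, by decide, by decide, h⟩
  · exact ⟨2, 3, 4, by decide, by decide, h⟩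
  · exact ⟨2, 3, 5, by decide, by decide, h⟩
  · exact ⟨2, 4, 5, by decide, by decide, h⟩
  · exact ⟨3, 4, 5, by decide, by decide, h⟩

/-- bounded quantifier -/
def allB (n : ℕ) (p : ℕ → Bool) : Bool := Nat.rec true (fun m ih => p m && ih) n

theorem allB_spec {n : ℕ} {p : ℕ → Bool} (h : allB n p = true) (i : ℕ) (hi : i < n) :
    p i = true := by
  induction n with
  | zero => omega
  | succ m ih =>
    have h' : (p m && allB m p) = true := h
    rw [Bool.and_eq_true] at h'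
    rcases Nat.lt_succ_iff_lt_or_eq.1 hi with h1 | h1
    · exact ih h'.2 h1
    · rw [h1]; exact h'.1

/-- the condition -/
def cond (d a11 a12 a21 a22 b1 b2 c1 c2 e1 e2 e3 : ℕ) : Bool :=
  (Nat.ble d (e1 + e2 + e3) && (Nat.ble (e1 + e2) d || Nat.ble (e1 + e3) d ||
    Nat.ble (e2 + e3) d)) || (Nat.beq b1 1 && Nat.beq c1 1) ||
  chk6 d a11 b1 c1 e1 e2 e3 || chk6 d a12 b1 c2 e1 e2 e3 || chk6 d a21 b2 c1 e1 e2 e3 ||
  chk6 d a22 b2 c2 e1 e2 e3

/-- the loop: `aij = value + 1` -/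
def loop (d : ℕ) : Bool :=
  allB (d - 2) fun x11 => allB (d - 2 - x11) fun x12 => allB (d - 2 - x11) fun x21 =>
    allB (d - 2 - max x12 x21) fun x22 =>
      allB (x11 + x12 + x21 + x22 + 2) fun y1 => allB (x11 + x12 + x21 + x22 + 2 - y1) fun y2 =>
        cond d (x11 + 1) (x12 + 1) (x21 + 1) (x22 + 1) (d - (x11 + x12 + 2)) (d - (x21 + x22 + 2))
          (d - (x11 + x21 + 2)) (d - (x12 + x22 + 2)) (y1 + 1) (y2 + 1)
          (x11 + x12 + x21 + x22 + 2 - (y1 + y2))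

set_option maxRecDepth 100000 in
theorem loop7 : loop 7 = true := by decide +kernel

set_option maxRecDepth 100000 in
theorem loop8 : loop 8 = true := by decide +kernel

/-- **Part F3.** -/
theorem main : Pool.Agent.Helper42.PQ.S_F3 := by
  intro d hd a11 a12 a21 a22 b1 b2 c1 c2 e1 e2 e3 h1 h2 h3 h4 h5 h6 h7 h8 h9 h10 h11 s1 s2 s3 s4 s5
  have hl : loop d = true := by
    rcases hd with rfl | rfl
    · exact loop7
    · exact loop8
  have hd7 : 7 ≤ d := by rcases hd with rfl | rfl <;> omega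
  have k1 := allB_spec hl (a11 - 1) (by omega)
  have k2 := allB_spec k1 (a12 - 1) (by omega)
  have k3 := allB_spec k2 (a21 - 1) (by omega)
  have k4 := allB_spec k3 (a22 - 1) (by
    rcases max_choice (a12 - 1) (a21 - 1) with h | h <;> rw [h] <;> omega)
  have k5 := allB_spec k4 (e1 - 1) (by omega)
  have k6 := allB_spec k5 (e2 - 1) (by omega)
  have t1 : a11 - 1 + 1 = a11 := by omega
  have t2 : a12 - 1 + 1 = a12 := by omega
  have t3 : a21 - 1 + 1 = a21 := by omega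
  have t4 : a22 - 1 + 1 = a22 := by omega
  have t5 : d - (a11 - 1 + (a12 - 1) + 2) = b1 := by omega
  have t6 : d - (a21 - 1 + (a22 - 1) + 2) = b2 := by omega
  have t7 : d - (a11 - 1 + (a21 - 1) + 2) = c1 := by omega
  have t8 : d - (a12 - 1 + (a22 - 1) + 2) = c2 := by omega
  have t9 : e1 - 1 + 1 = e1 := by omega
  have t10 : e2 - 1 + 1 = e2 := by omega
  have t11 : a11 - 1 + (a12 - 1) + (a21 - 1) + (a22 - 1) + 2 - (e1 - 1 + (e2 - 1)) = e3 := by omega
  simp only [t1, t2, t3, t4, t5, t6, t7, t8, t9, t10, t11] at k6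
  unfold cond at k6
  simp only [Bool.or_eq_true, Bool.and_eq_true, Nat.beq_eq, Nat.ble_eq] at k6
  rcases k6 with ((((h | h) | h) | h) | h) | h
  · exact Or.inl ⟨h.1, by rcases h.2 with (h | h) | h
                          · exact Or.inl h
                          · exact Or.inr (Or.inl h)
                          · exact Or.inr (Or.inr h)⟩
  · exact Or.inr (Or.inl h)
  · obtain ⟨i, j, k, hij, hjk, h⟩ := chk6_spec _ _ _ _ _ _ _ h
    exact Or.inr (Or.inr ⟨i, j, k, hij, hjk, Or.inl h⟩)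
  · obtain ⟨i, j, k, hij, hjk, h⟩ := chk6_spec _ _ _ _ _ _ _ h
    exact Or.inr (Or.inr ⟨i, j, k, hij, hjk, Or.inr (Or.inl h)⟩)
  · obtain ⟨i, j, k, hij, hjk, h⟩ := chk6_spec _ _ _ _ _ _ _ h
    exact Or.inr (Or.inr ⟨i, j, k, hij, hjk, Or.inr (Or.inr (Or.inl h))⟩)
  · obtain ⟨i, j, k, hij, hjk, h⟩ := chk6_spec _ _ _ _ _ _ _ h
    exact Or.inr (Or.inr ⟨i, j, k, hij, hjk, Or.inr (Or.inr (Or.inr h))⟩)

end Pool.Agent.Helper71.PQF3
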