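import Pool.Agent.Helper42.PQ.Spec3
import Pool.Agent.Helper42.PQ.Base

/-!
Part T2 of swarm PQ: `k = 3`, nine variables.
-/

set_option autoImplicit false

namespace Pool.Agent.Helper71.PQT2

open Finset Pool.Agent.Helper42.PQ

variable {ι : Type} [Fintype ι] [DecidableEq ι] {d : ℕ} {w : ι → ℕ}

/-- the class of the swapped grouping -/
theorem cls_swap {q : ℕ} (ρ : ι → Fin q) (x y : ι) (hxy : w x = w y) (j : Fin q) :
    cls w (fun v => ρ (Equiv.swap x y v)) j = (cls w ρ j).map (Equiv.swap x y).toEmbedding := by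
  have hw : ∀ v, w (Equiv.swap x y v) = w v := by
    intro v
    by_cases h1 : v = x
    · subst h1; rw [Equiv.swap_apply_left, hxy]
    · by_cases h2 : v = y
      · subst h2; rw [Equiv.swap_apply_right, hxy]
      · rw [Equiv.swap_apply_of_ne_of_ne h1 h2]
  ext v
  rw [mem_cls, mem_map_equiv, mem_cls, Equiv.symm_swap, hw]

theorem NG_swap {q : ℕ} {r : ℕ} (ρ : ι → Fin q) (x y : ι) (hxy : w x = w y)
    (h : NG w r d ρ) : NG w r d (fun v => ρ (Equiv.swap x y v)) := by
  intro j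
  obtain ⟨t, h1, h2, h3⟩ := h j
  have hw : ∀ v, w (Equiv.swap x y v) = w v := by
    intro v
    by_cases h1 : v = x
    · subst h1; rw [Equiv.swap_apply_left, hxy]
    · by_cases h2 : v = y
      · subst h2; rw [Equiv.swap_apply_right, hxy]
      · rw [Equiv.swap_apply_of_ne_of_ne h1 h2]
  refine ⟨t, h1, ?_, ?_⟩
  · rw [cls_swap ρ x y hxy, card_map, h2]
  · rw [cls_swap ρ x y hxy, ← h3]
    unfold sg
    rw [sum_map]
    exact sum_congr rfl fun v _ => hw v

theorem swap_step (hREAL : S_REAL) (hTWO : S_TWO) (hd : 3 ≤ d) (hw : ∑ i, w i = 3 * d)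
    (ρ : ι → Fin 3) (S : Multiset (G ι d 3)) (hS : Cf (r := 2) w ρ S) (x y : ι)
    (hxy : w x = w y) :
    ∃ S' : Multiset (G ι d 3), Cf (r := 2) w (fun v => ρ (Equiv.swap x y v)) S' ∧ Cn S S' := by
  obtain ⟨S', hS'⟩ := hREAL ι d 2 3 w (fun v => ρ (Equiv.swap x y v)) le_rfl hd
    (NG_swap ρ x y hxy hS.NG)
  refine ⟨S', hS', ?_⟩
  refine hTWO ι d 2 3 3 w ρ (fun v => ρ (Equiv.swap x y v)) (ρ x) (ρ y) S S' le_rfl hd le_rfl hw
    (fun k' hk' w' _ => Conn_le_two (by omega) w') ?_ hS hS'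
  intro v _
  show (ρ v ≠ ρ x → ρ v ≠ ρ y → ρ (Equiv.swap x y v) = ρ v) ∧
    ((ρ v = ρ x ∨ ρ v = ρ y) → (ρ (Equiv.swap x y v) = ρ x ∨ ρ (Equiv.swap x y v) = ρ y))
  by_cases h1 : v = x
  · subst h1
    rw [Equiv.swap_apply_left]
    exact ⟨fun h => absurd rfl h, fun _ => Or.inr rfl⟩
  · by_cases h2 : v = y
    · subst h2
      rw [Equiv.swap_apply_right]
      exact ⟨fun _ h => absurd rfl h, fun _ => Or.inl rfl⟩
    · rw [Equiv.swap_apply_of_ne_of_ne h1 h2]
      exact ⟨fun _ _ => rfl, fun h => h⟩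

theorem common (hPUR : S_PUR) (ρ κ : ι → Fin 3) (S T : Multiset (G ι d 3))
    (hSc : S.card = 3) (hTc : T.card = 3)
    (hS : Cf (r := 2) w ρ S) (hT : Cf (r := 2) w κ T) (i j : Fin 3)
    (hc : (cls w ρ i).card = 3) (h : cls w ρ i = cls w κ j) : Cn S T := by
  obtain ⟨m, hm, hm1⟩ := hPUR ι d 2 3 w ρ i S (by norm_num) hS hc
  obtain ⟨m', hm', hm1'⟩ := hPUR ι d 2 3 w κ j T (by norm_num) hT (h ▸ hc)
  have : m = m' := Subtype.ext (by rw [hm1, hm1', h])
  subst this
  exact Cn.of_common hm hm' (k := 2) hSc hTc hS.Wt_eq hT.Wt_eq (Conn_le_two le_rfl _)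

theorem two_common (hREAL : S_REAL) (hTWO : S_TWO) (hPUR : S_PUR) (hd : 3 ≤ d)
    (hw : ∑ i, w i = 3 * d) (ρ κ : ι → Fin 3) (S T : Multiset (G ι d 3))
    (hSc : S.card = 3) (hTc : T.card = 3)
    (hS : Cf (r := 2) w ρ S) (hT : Cf (r := 2) w κ T)
    (hc : ∀ i, (cls w ρ i).card = 3 ∧ sg w (cls w ρ i) = d)
    (hc' : ∀ i, (cls w κ i).card = 3 ∧ sg w (cls w κ i) = d) (i j : Fin 3)
    (h : 2 ≤ (cls w ρ i ∩ cls w κ j).card) : Cn S T := by
  by_cases he : cls w ρ i = cls w κ j
  · exact common hPUR ρ κ S T hSc hTc hS hT i j (hc i).1 he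
  have h3 : (cls w ρ i ∩ cls w κ j).card ≠ 3 := by
    intro h3
    apply he
    have e1 : cls w ρ i ∩ cls w κ j = cls w ρ i :=
      eq_of_subset_of_card_le inter_subset_left (by rw [h3, (hc i).1])
    have e2 : cls w ρ i ∩ cls w κ j = cls w κ j :=
      eq_of_subset_of_card_le inter_subset_right (by rw [h3, (hc' j).1])
    rw [← e1, e2]
  have h4 : (cls w ρ i ∩ cls w κ j).card ≤ 3 :=
    (card_le_card inter_subset_left).trans (hc i).1.le
  have h2 : (cls w ρ i ∩ cls w κ j).card = 2 := by omega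
  have hx : (cls w ρ i \ cls w κ j).card = 1 := by
    have := card_sdiff_add_card_inter (cls w ρ i) (cls w κ j)
    have := (hc i).1
    omega
  have hy : (cls w κ j \ cls w ρ i).card = 1 := by
    have := card_sdiff_add_card_inter (cls w κ j) (cls w ρ i)
    rw [inter_comm] at this
    have := (hc' j).1
    omega
  obtain ⟨x, hx⟩ := card_eq_one.1 hx
  obtain ⟨y, hy⟩ := card_eq_one.1 hy
  have hxm : x ∈ cls w ρ i \ cls w κ j := by rw [hx]; exact mem_singleton_self x
  have hym : y ∈ cls w κ j \ cls w ρ i := by rw [hy]; exact mem_singleton_self y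
  have hwxy : w x = w y := by
    have s1 : sg w (cls w ρ i \ cls w κ j) + sg w (cls w ρ i ∩ cls w κ j) = sg w (cls w ρ i) := by
      unfold sg
      rw [← sum_union (disjoint_sdiff_inter _ _), sdiff_union_inter]
    have s2 : sg w (cls w κ j \ cls w ρ i) + sg w (cls w ρ i ∩ cls w κ j) = sg w (cls w κ j) := by
      unfold sg
      rw [inter_comm, ← sum_union (disjoint_sdiff_inter _ _), sdiff_union_inter]
    rw [hx, (hc i).2] at s1
    rw [hy, (hc' j).2] at s2
    unfold sg at s1 s2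
    rw [sum_singleton] at s1 s2
    omega
  obtain ⟨S', hS', hSS'⟩ := swap_step hREAL hTWO hd hw ρ S hS x y hwxy
  refine hSS'.trans ?_
  have hcl : cls w (fun v => ρ (Equiv.swap x y v)) i = cls w κ j := by
    rw [mem_sdiff] at hxm hym
    have hA : ∀ v, v ∈ cls w ρ i → v ∉ cls w κ j → v = x := by
      intro v h1 h2
      have : v ∈ cls w ρ i \ cls w κ j := mem_sdiff.2 ⟨h1, h2⟩
      rw [hx] at this
      exact mem_singleton.1 this
    have hB : ∀ v, v ∈ cls w κ j → v ∉ cls w ρ i → v = y := by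
      intro v h1 h2
      have : v ∈ cls w κ j \ cls w ρ i := mem_sdiff.2 ⟨h1, h2⟩
      rw [hy] at this
      exact mem_singleton.1 this
    ext v
    rw [cls_swap ρ x y hwxy, mem_map_equiv, Equiv.symm_swap]
    by_cases h1 : v = x
    · subst h1
      rw [Equiv.swap_apply_left]
      exact ⟨fun h => absurd h hym.2, fun h => absurd h hxm.2⟩
    · by_cases h2 : v = y
      · subst h2
        rw [Equiv.swap_apply_right]
        exact ⟨fun _ => hym.1, fun _ => hxm.1⟩
      · rw [Equiv.swap_apply_of_ne_of_ne h1 h2]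
        constructor
        · intro h
          by_contra hc
          exact h1 (hA v h hc)
        · intro h
          by_contra hc
          exact h2 (hB v h hc)
  refine common hPUR _ κ S' T ?_ hTc hS' hT i j ?_ hcl
  · rw [← hSS'.card_eq, hSc]
  · rw [hcl]; exact (hc' j).1

/-- all classes have three elements -/
theorem classes (h9 : (sp w).card = 9) (ρ : ι → Fin 3)
    (h : NG w 2 d ρ) : ∀ i, (cls w ρ i).card = 3 ∧ sg w (cls w ρ i) = d := by
  have hsum : (sp w).card = ∑ j, (cls w ρ j).card := by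
    rw [card_eq_sum_card_fiberwise (f := ρ) (t := univ) (fun _ _ => mem_coe.2 (mem_univ _))]
    rfl
  rw [h9, Fin.sum_univ_three] at hsum
  obtain ⟨t0, a0, b0, c0⟩ := h 0
  obtain ⟨t1, a1, b1, c1⟩ := h 1
  obtain ⟨t2, a2, b2, c2⟩ := h 2
  have e0 : t0 = 1 := by omega
  have e1 : t1 = 1 := by omega
  have e2 : t2 = 1 := by omega
  subst e0 e1 e2
  intro i
  fin_cases i
  · exact ⟨b0, by simpa using c0⟩
  · exact ⟨b1, by simpa using c1⟩
  · exact ⟨b2, by simpa using c2⟩

/-- **Part T2.** -/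
theorem main (hGRP : S_GRP) (hREAL : S_REAL) (hTWO : S_TWO) (hPUR : S_PUR) (hMAG : S_MAG) :
    S_T2 := by
  intro ι _ _ d w hd7 hd8 hw h9 S T hSc hTc hSw hTw
  obtain ⟨ρ, hS⟩ := hGRP ι d 2 3 w S (by norm_num) (by norm_num) hSw (by rw [hSc, h9])
  obtain ⟨κ, hT⟩ := hGRP ι d 2 3 w T (by norm_num) (by norm_num) hTw (by rw [hTc, h9])
  have hc := classes h9 ρ hS.NG
  have hc' := classes h9 κ hT.NG
  by_cases h2 : ∃ i j, 2 ≤ (cls w ρ i ∩ cls w κ j).card
  · obtain ⟨i, j, h⟩ := h2
    exact two_common hREAL hTWO hPUR (by omega) hw ρ κ S T hSc hTc hS hT hc hc' i j h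
  push Not at h2
  have hrow : ∀ i, cls w ρ i = univ.biUnion fun j => cls w ρ i ∩ cls w κ j := by
    intro i
    ext v
    simp only [mem_biUnion, mem_univ, true_and, mem_inter]
    constructor
    · intro h
      exact ⟨κ v, h, mem_cls.2 ⟨(mem_cls.1 h).1, rfl⟩⟩
    · rintro ⟨_, h, _⟩; exact h
  have hcol : ∀ j, cls w κ j = univ.biUnion fun i => cls w ρ i ∩ cls w κ j := by
    intro j
    ext v
    simp only [mem_biUnion, mem_univ, true_and, mem_inter]
    constructor
    · intro h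
      exact ⟨ρ v, mem_cls.2 ⟨(mem_cls.1 h).1, rfl⟩, h⟩
    · rintro ⟨_, _, h⟩; exact h
  have hdr : ∀ i, ((univ : Finset (Fin 3)) : Set (Fin 3)).PairwiseDisjoint
      (fun j => cls w ρ i ∩ cls w κ j) := by
    intro i j _ j' _ hjj
    refine disjoint_left.2 fun v hv hv' => hjj ?_
    exact (mem_cls.1 (mem_inter.1 hv).2).2.symm.trans (mem_cls.1 (mem_inter.1 hv').2).2
  have hdc : ∀ j, ((univ : Finset (Fin 3)) : Set (Fin 3)).PairwiseDisjoint
      (fun i => cls w ρ i ∩ cls w κ j) := by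
    intro j i _ i' _ hii
    refine disjoint_left.2 fun v hv hv' => hii ?_
    exact (mem_cls.1 (mem_inter.1 hv).1).2.symm.trans (mem_cls.1 (mem_inter.1 hv').1).2
  have hone : ∀ i j, (cls w ρ i ∩ cls w κ j).card = 1 := by
    intro i
    have h1 : (cls w ρ i).card = ∑ j, (cls w ρ i ∩ cls w κ j).card := by
      conv_lhs => rw [hrow i]
      exact card_biUnion (hdr i)
    rw [(hc i).1, Fin.sum_univ_three] at h1
    have a0 := h2 i 0
    have a1 := h2 i 1
    have a2 := h2 i 2
    intro j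
    fin_cases j
    · show (cls w ρ i ∩ cls w κ 0).card = 1
      omega
    · show (cls w ρ i ∩ cls w κ 1).card = 1
      omega
    · show (cls w ρ i ∩ cls w κ 2).card = 1
      omega
  choose e he using fun i j => card_eq_one.1 (hone i j)
  have hem : ∀ i j, e i j ∈ cls w ρ i ∩ cls w κ j := fun i j => by
    rw [he]; exact mem_singleton_self _
  obtain ⟨i, i', j, j', hii, hjj, hM⟩ := hMAG d (by omega) (fun i j => w (e i j))
    (fun i j => by
      have := (mem_cls.1 (mem_inter.1 (hem i j)).1).1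
      show 1 ≤ w (e i j)
      omega)
    (fun i => by
      rw [← (hc i).2]
      conv_rhs => rw [hrow i]
      unfold sg
      rw [sum_biUnion (hdr i)]
      refine sum_congr rfl fun j _ => ?_
      rw [he, sum_singleton])
    (fun j => by
      rw [← (hc' j).2]
      conv_rhs => rw [hcol j]
      unfold sg
      rw [sum_biUnion (hdc j)]
      refine sum_congr rfl fun i _ => ?_
      rw [he, sum_singleton])
  obtain ⟨S', hS', hSS'⟩ := swap_step hREAL hTWO (by omega) hw ρ S hS (e i j) (e i' j') hM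
  refine hSS'.trans ?_
  have hSc' : S'.card = 3 := by rw [← hSS'.card_eq, hSc]
  refine two_common hREAL hTWO hPUR (by omega) hw _ κ S' T hSc' hTc hS' hT
    (classes h9 _ hS'.NG) hc' i' j ?_
  have m1 := fun i j => mem_cls.1 (mem_inter.1 (hem i j)).1
  have m2 := fun i j => mem_cls.1 (mem_inter.1 (hem i j)).2
  have hne : e i j ≠ e i' j := by
    intro h
    have h1 := (m1 i j).2
    have h2 := (m1 i' j).2
    rw [h, h2] at h1
    exact hii h1.symm
  have hsub : ({e i j, e i' j} : Finset ι) ⊆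
      cls w (fun v => ρ (Equiv.swap (e i j) (e i' j') v)) i' ∩ cls w κ j := by
    intro v hv
    rw [mem_insert, mem_singleton] at hv
    rcases hv with rfl | rfl
    · rw [mem_inter, mem_cls, mem_cls]
      refine ⟨⟨(m1 i j).1, ?_⟩, (m2 i j)⟩
      rw [Equiv.swap_apply_left]
      exact (m1 i' j').2
    · rw [mem_inter, mem_cls, mem_cls]
      refine ⟨⟨(m1 i' j).1, ?_⟩, (m2 i' j)⟩
      rw [Equiv.swap_apply_of_ne_of_ne hne.symm]
      · exact (m1 i' j).2
      · intro h
        have h1 := (m2 i' j).2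
        have h2 := (m2 i' j').2
        rw [h, h2] at h1
        exact hjj h1.symm
  calc 2 = ({e i j, e i' j} : Finset ι).card := (card_pair hne).symm
    _ ≤ _ := card_le_card hsub

end Pool.Agent.Helper71.PQT2
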