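import Pool.Agent.Helper42.PQ.Spec3
import Pool.Agent.Helper42.PQ.Base

/-!
Part T4 of swarm PQ: `k = 4`, ten variables.
-/

set_option autoImplicit false

namespace Pool.Agent.Helper71.PQT4

open Finset Pool.Agent.Helper42.PQ

variable {ι : Type} [Fintype ι] [DecidableEq ι] {d : ℕ} {w : ι → ℕ}

/-- a node in the intersection of two classes -/
theorem viaNode (hNODE : S_NODE) (hNOD : S_NOD) (hd : 3 ≤ d) (hw : ∑ i, w i = 4 * d)
    (hih : ∀ w' : ι → ℕ, ∑ i, w' i = 3 * d → Conn ι d 3 3 w')
    (ρ κ : ι → Fin 2) (S U : Multiset (G ι d 3)) (hS : Cf (r := 2) w ρ S)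
    (hU : Cf (r := 2) w κ U) (a b : Fin 2) (D : Finset ι) (hDa : D ⊆ cls w ρ a)
    (hDb : D ⊆ cls w κ b) (h3 : 3 ≤ D.card) (h1 : D.card * (d - 1) < 3 * sg w D)
    (h2 : 2 * sg w D < D.card * (d + 1)) : Cn S U := by
  obtain ⟨P, x, hP, hx, hB⟩ := hNOD ι w d D h3 h1 h2
  refine hNODE ι d 2 2 2 3 w ρ κ a b (P, x) S U le_rfl hd hw ?_ hB (hP.trans hDa) (hDa hx)
    (hP.trans hDb) (hDb hx) hS hU
  exact hih _ (sum_sub_bvec (p := (P, x)) hB hw)

theorem sg_le (A W : Finset ι) (hW : ∀ v ∈ W, 1 ≤ w v) :
    sg w (A ∩ W) + (W \ A).card ≤ sg w W := by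
  have h1 : sg w W = sg w (W \ A) + sg w (W ∩ A) := by
    unfold sg
    rw [← sum_union (disjoint_sdiff_inter _ _), sdiff_union_inter]
  have h2 : (W \ A).card ≤ sg w (W \ A) := by
    unfold sg
    rw [card_eq_sum_ones]
    exact sum_le_sum fun v hv => hW v (mem_sdiff.1 hv).1
  rw [inter_comm] at h1
  omega

theorem key (hNODE : S_NODE) (hNOD : S_NOD) (hPUR : S_PUR) (hd7 : 7 ≤ d) (hd8 : d ≤ 8)
    (hw : ∑ i, w i = 4 * d) (h10 : (sp w).card = 10)
    (hih : ∀ w' : ι → ℕ, ∑ i, w' i = 3 * d → Conn ι d 3 3 w')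
    (W : Finset ι) (hW : W ⊆ sp w) (hW3 : W.card = 3) (hWd : sg w W = d)
    (κ : ι → Fin 2) (U : Multiset (G ι d 3)) (hU : Cf (r := 2) w κ U)
    (hκ0 : cls w κ 0 = W) (hκ1 : cls w κ 1 = sp w \ W)
    (ρ : ι → Fin 2) (S : Multiset (G ι d 3)) (hS : Cf (r := 2) w ρ S) : Cn S U := by
  have hW1 : ∀ v ∈ W, 1 ≤ w v := fun v hv => by
    have := mem_sp.1 (hW hv)
    omega
  -- the two classes
  have hun : ∀ a b : Fin 2, a ≠ b → cls w ρ a ∪ cls w ρ b = sp w := by
    intro a b hab
    ext v
    rw [mem_union, mem_cls, mem_cls, mem_sp]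
    constructor
    · rintro (h | h) <;> exact h.1
    · intro h
      by_cases h1 : ρ v = a
      · exact Or.inl ⟨h, h1⟩
      · refine Or.inr ⟨h, ?_⟩
        omega
  have hdis : ∀ a b : Fin 2, a ≠ b → Disjoint (cls w ρ a) (cls w ρ b) := by
    intro a b hab
    rw [disjoint_left]
    intro v h1 h2
    exact hab ((mem_cls.1 h1).2.symm.trans (mem_cls.1 h2).2)
  have hcard : ∀ a b : Fin 2, a ≠ b → (cls w ρ a).card + (cls w ρ b).card = 10 := by
    intro a b hab
    rw [← card_union_of_disjoint (hdis a b hab), hun a b hab, h10]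
  have hspsum : sg w (sp w) = 4 * d := by
    rw [← hw]
    unfold sg sp
    rw [sum_filter]
    exact sum_congr rfl fun v _ => by
      by_cases h : w v = 0 <;> simp [h]
  -- a class with three elements
  have case3 : ∀ a b : Fin 2, a ≠ b → (cls w ρ a).card = 3 → Cn S U := by
    intro a b hab ha
    by_cases hAW : cls w ρ a = W
    · obtain ⟨m, hm, hm1⟩ := hPUR ι d 2 2 w ρ a S (by norm_num) hS ha
      obtain ⟨m', hm', hm1'⟩ := hPUR ι d 2 2 w κ 0 U (by norm_num) hU (by rw [hκ0, hW3])
      have : m = m' := Subtype.ext (by rw [hm1, hm1', hAW, hκ0])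
      subst this
      have hd0 : 1 ≤ d := by omega
      refine Cn.of_common hm hm' (k := 3) (card_of_Wt hd0 hS.Wt_eq hw)
        (card_of_Wt hd0 hU.Wt_eq hw) hS.Wt_eq hU.Wt_eq (hih _ ?_)
      have h1 := sum_sub_of_le w m.1 (fun i => by
        have := le_Wt hm i
        rwa [hS.Wt_eq] at this)
      rw [m.2.1, hw] at h1
      omega
    · set A := cls w ρ a with hA
      have hAsp : A ⊆ sp w := by rw [← hun a b hab]; exact subset_union_left
      have hj : (A ∩ W).card ≤ 2 := by
        by_contra h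
        push Not at h
        apply hAW
        have e1 : A ∩ W = A := eq_of_subset_of_card_le inter_subset_left (by omega)
        have e2 : A ∩ W = W := eq_of_subset_of_card_le inter_subset_right (by omega)
        rw [← e1, e2]
      have hAWsub : A ∪ W ⊆ sp w := union_subset hAsp hW
      have hc1 : (A ∪ W).card + (A ∩ W).card = 6 := by
        rw [card_union_add_card_inter, ha, hW3]
      have hc2 : (sp w \ (A ∪ W)).card = 4 + (A ∩ W).card := by
        rw [card_sdiff_of_subset hAWsub, h10]; omega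
      have hNG := hS.NG a
      obtain ⟨t, ht1, ht2, ht3⟩ := hNG
      rw [← hA, ha] at ht2
      have ht : t = 1 := by omega
      rw [ht, one_mul, ← hA] at ht3
      have hs1 : sg w (A ∪ W) + sg w (A ∩ W) = 2 * d := by
        have : sg w (A ∪ W) + sg w (A ∩ W) = sg w A + sg w W := by
          unfold sg; exact sum_union_inter
        rw [this, ht3, hWd]; ring
      have hs2 : sg w (sp w \ (A ∪ W)) + sg w (A ∪ W) = 4 * d := by
        rw [← hspsum]
        unfold sg
        exact sum_sdiff hAWsub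
      have hs3 := sg_le A W hW1
      have hs4 : (W \ A).card + (A ∩ W).card = 3 := by
        rw [← hW3, inter_comm]
        exact card_sdiff_add_card_inter W A
      have hs0 : (A ∩ W).card = 0 → sg w (A ∩ W) = 0 := by
        intro h
        rw [card_eq_zero.1 h]; simp [sg]
      rw [hWd] at hs3
      refine viaNode hNODE hNOD (by omega) hw hih ρ κ S U hS hU b 1 (sp w \ (A ∪ W)) ?_ ?_ ?_ ?_ ?_
      · intro v hv
        rw [mem_sdiff, mem_union, not_or, ← hun a b hab, mem_union] at hv
        exact hv.1.resolve_left hv.2.1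
      · rw [hκ1]
        exact sdiff_subset_sdiff le_rfl subset_union_right
      · rw [hc2]; omega
      · rw [hc2]
        generalize (A ∩ W).card = j at *
        generalize sg w (A ∩ W) = s at *
        generalize sg w (sp w \ (A ∪ W)) = x at *
        interval_cases d <;> interval_cases j <;> omega
      · rw [hc2]
        generalize (A ∩ W).card = j at *
        generalize sg w (A ∩ W) = s at *
        generalize sg w (sp w \ (A ∪ W)) = x at *
        interval_cases d <;> interval_cases j <;> omega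
  -- two classes with five elements
  have case5 : ∀ a b : Fin 2, a ≠ b → (cls w ρ a).card = 5 → (cls w ρ a ∩ W).card ≤ 1 →
      Cn S U := by
    intro a b hab ha hj
    set A := cls w ρ a with hA
    have hAsp : A ⊆ sp w := by rw [← hun a b hab]; exact subset_union_left
    obtain ⟨t, ht1, ht2, ht3⟩ := hS.NG a
    rw [← hA, ha] at ht2
    have ht : t = 2 := by omega
    rw [ht, ← hA] at ht3
    have hc1 : (A \ W).card + (A ∩ W).card = 5 := by
      rw [← ha]; exact card_sdiff_add_card_inter A W
    have hs1 : sg w (A \ W) + sg w (A ∩ W) = 2 * d := by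
      rw [← ht3]
      unfold sg
      rw [← sum_union (disjoint_sdiff_inter _ _), sdiff_union_inter]
    have hs3 := sg_le A W hW1
    have hs4 : (W \ A).card + (A ∩ W).card = 3 := by
      rw [← hW3, inter_comm]
      exact card_sdiff_add_card_inter W A
    have hs0 : (A ∩ W).card = 0 → sg w (A ∩ W) = 0 := by
      intro h
      rw [card_eq_zero.1 h]; simp [sg]
    rw [hWd] at hs3
    have hc2 : (A \ W).card = 5 - (A ∩ W).card := by omega
    refine viaNode hNODE hNOD (by omega) hw hih ρ κ S U hS hU a 1 (A \ W) sdiff_subset ?_ ?_ ?_ ?_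
    · rw [hκ1]
      exact sdiff_subset_sdiff hAsp le_rfl
    · omega
    · rw [hc2]
      generalize (A ∩ W).card = j at *
      generalize sg w (A ∩ W) = s at *
      generalize sg w (A \ W) = x at *
      interval_cases d <;> interval_cases j <;> omega
    · rw [hc2]
      generalize (A ∩ W).card = j at *
      generalize sg w (A ∩ W) = s at *
      generalize sg w (A \ W) = x at *
      interval_cases d <;> interval_cases j <;> omega
  -- the cases
  have h01 : (0 : Fin 2) ≠ 1 := by decide
  obtain ⟨t0, a0, b0, c0⟩ := hS.NG 0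
  obtain ⟨t1, a1, b1, c1⟩ := hS.NG 1
  have hc := hcard 0 1 h01
  have ht : t0 + t1 = 4 := by omega
  rcases (by omega : t0 = 1 ∨ t1 = 1 ∨ (t0 = 2 ∧ t1 = 2)) with h | h | ⟨h, h'⟩
  · exact case3 0 1 h01 (by rw [b0, h])
  · exact case3 1 0 h01.symm (by rw [b1, h])
  · have hWc : (cls w ρ 0 ∩ W).card + (cls w ρ 1 ∩ W).card = 3 := by
      rw [← hW3, ← card_union_of_disjoint]
      · rw [← union_inter_distrib_right, hun 0 1 h01, inter_eq_right.2 hW]
      · exact (hdis 0 1 h01).mono inter_subset_left inter_subset_left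
    by_cases hle : (cls w ρ 0 ∩ W).card ≤ 1
    · exact case5 0 1 h01 (by rw [b0, h]) hle
    · exact case5 1 0 h01.symm (by rw [b1, h']) (by omega)

/-- **Part T4.** -/
theorem main (hGRP : S_GRP) (hREAL : S_REAL) (hNODE : S_NODE) (hNOD : S_NOD) (hPUR : S_PUR)
    (hT3 : S_T3) : S_T4 := by
  intro ι _ _ d w hd7 hd8 hw h10 hih S T hSc hTc hSw hTw
  obtain ⟨ρ, hS⟩ := hGRP ι d 2 2 w S (by norm_num) (by norm_num) hSw (by rw [hSc, h10])
  obtain ⟨κ, hT⟩ := hGRP ι d 2 2 w T (by norm_num) (by norm_num) hTw (by rw [hTc, h10])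
  by_cases htr : ∃ W, W ⊆ sp w ∧ W.card = 3 ∧ sg w W = d
  · obtain ⟨W, hW, hW3, hWd⟩ := htr
    have hspsum : sg w (sp w) = 4 * d := by
      rw [← hw]
      unfold sg sp
      rw [sum_filter]
      exact sum_congr rfl fun v _ => by
        by_cases h : w v = 0 <;> simp [h]
    let σ : ι → Fin 2 := fun v => if v ∈ W then 0 else 1
    have hσ0 : cls w σ 0 = W := by
      ext v
      rw [mem_cls]
      by_cases h : v ∈ W
      · simp only [σ, if_pos h, and_true, h, iff_true]
        exact mem_sp.1 (hW h)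
      · simp only [σ, if_neg h, h, iff_false, not_and]
        intro _; decide
    have hσ1 : cls w σ 1 = sp w \ W := by
      ext v
      rw [mem_cls, mem_sdiff, mem_sp]
      by_cases h : v ∈ W
      · simp only [σ, if_pos h, h, not_true, and_false, iff_false, not_and]
        intro _; decide
      · simp only [σ, if_neg h, h, not_false_iff, and_true]
    have hNG : NG w 2 d σ := by
      intro j
      fin_cases j
      · refine ⟨1, le_rfl, ?_, ?_⟩
        · show (cls w σ 0).card = _
          rw [hσ0, hW3]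
        · show sg w (cls w σ 0) = _
          rw [hσ0, hWd, one_mul]
      · refine ⟨3, by norm_num, ?_, ?_⟩
        · show (cls w σ 1).card = _
          rw [hσ1, card_sdiff_of_subset hW, h10, hW3]
        · show sg w (cls w σ 1) = _
          rw [hσ1]
          have h1 : sg w (sp w \ W) + sg w W = sg w (sp w) := by
            unfold sg; exact sum_sdiff hW
          rw [hspsum, hWd] at h1
          omega
    obtain ⟨U, hU⟩ := hREAL ι d 2 2 w σ le_rfl (by omega) hNG
    exact (key hNODE hNOD hPUR hd7 hd8 hw h10 hih W hW hW3 hWd σ U hU hσ0 hσ1 ρ S hS).trans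
      (key hNODE hNOD hPUR hd7 hd8 hw h10 hih W hW hW3 hWd σ U hU hσ0 hσ1 κ T hT).symm
  · push Not at htr
    have hfive : ∀ ρ : ι → Fin 2, NG w 2 d ρ → (cls w ρ 0).card = 5 := by
      intro ρ h
      have hsub : ∀ j, cls w ρ j ⊆ sp w := fun j => by
        unfold cls; exact filter_subset _ _
      have hsum : (sp w).card = ∑ j, (cls w ρ j).card := by
        rw [card_eq_sum_card_fiberwise (f := ρ) (t := univ) (fun _ _ => mem_coe.2 (mem_univ _))]
        rfl
      rw [h10, Fin.sum_univ_two] at hsum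
      obtain ⟨t0, a0, b0, c0⟩ := h 0
      obtain ⟨t1, a1, b1, c1⟩ := h 1
      have n0 : t0 ≠ 1 := by
        intro h
        subst h
        exact htr _ (hsub 0) b0 (by rw [c0, one_mul])
      have n1 : t1 ≠ 1 := by
        intro h
        subst h
        exact htr _ (hsub 1) b1 (by rw [c1, one_mul])
      omega
    exact hT3 ι d w hd7 hd8 hw h10 hih (fun W hW h3 => htr W hW h3) ρ κ S T
      (hfive ρ hS.NG) (hfive κ hT.NG) hS hT

end Pool.Agent.Helper71.PQT4
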